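import Pool.Agent.Helper1.Recip.Main

/-!
Problem MP_6434ae_nt (prime solutions of `∑ 1/x_i + 1/∏ x_i = 1`).

Necessary conditions, valid for every length `s`, for solutions of the equation: if one term is
two and the others are odd, the product is determined modulo 32 by the length `s` (and modulo 288
if three is a term); a solution with only odd terms has a length divisible by eight, at least 16.
The proof combines the equation modulo sixteen with quadratic reciprocity (Jacobi symbols)
for the whole family of terms.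
-/

open Finset

namespace Pool.Agent.Results.MP_6434ae_nt.ResidueObstruction

open Pool.Agent.Helper1.Recip

/-- `x` is a solution of the equation of the problem (no order of the terms is required). -/
def Solution {s : ℕ} (x : Fin s → ℕ) : Prop :=
  (∑ i, (1 : ℚ) / (x i : ℚ)) + 1 / (∏ i, (x i : ℚ)) = 1

theorem nat_eq {s : ℕ} {x : Fin s → ℕ} (h0 : ∀ i, x i ≠ 0) (h : Solution x) :
    ∑ i, cop univ x i + 1 = ∏ i, x i := by
  unfold Solution at h
  have hne : (∏ i, (x i : ℚ)) ≠ 0 := prod_ne_zero_iff.mpr fun i _ => Nat.cast_ne_zero.mpr (h0 i)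
  have h1 : ∀ i, (1 : ℚ) / (x i : ℚ) * ∏ j, (x j : ℚ) = (cop univ x i : ℚ) := by
    intro i
    have h2 := mul_cop x (mem_univ i)
    have h3 : (∏ j, (x j : ℚ)) = (x i : ℚ) * (cop univ x i : ℚ) := by
      rw [← Nat.cast_mul, h2]; push_cast; rfl
    have h4 : (x i : ℚ) ≠ 0 := Nat.cast_ne_zero.mpr (h0 i)
    rw [h3]; field_simp
  have h5 : ((∑ i, (1 : ℚ) / (x i : ℚ)) + 1 / (∏ i, (x i : ℚ))) * ∏ i, (x i : ℚ) =
      ∏ i, (x i : ℚ) := by rw [h, one_mul]
  rw [add_mul, sum_mul, one_div_mul_cancel hne, sum_congr rfl (fun i _ => h1 i)] at h5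
  exact_mod_cast h5

theorem all_odd {s : ℕ} {x : Fin s → ℕ} (hodd : ∀ i, Odd (x i)) (h : Solution x) :
    8 ∣ s ∧ ((univ.filter fun i => x i % 4 = 3).card % 4 = 0 ∨
      (univ.filter fun i => x i % 4 = 3).card % 4 = 3) := by
  have h1 := odd_case univ x (fun i _ => hodd i) (nat_eq (fun i => (hodd i).pos.ne') h)
  rw [card_univ, Fintype.card_fin] at h1
  exact h1

theorem one_two {s : ℕ} {x : Fin s → ℕ} {i₀ : Fin s} (h2 : x i₀ = 2)
    (hodd : ∀ i, i ≠ i₀ → Odd (x i)) (h : Solution x) :
    (∏ i, x i) % 32 = (4 * s + 30) % 32 ∧ 4 ∣ (univ.filter fun i => x i % 4 = 1).card := by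
  have h0 : ∀ i, x i ≠ 0 := by
    intro i
    by_cases hi : i = i₀
    · rw [hi, h2]; norm_num
    · exact (hodd i hi).pos.ne'
  have h1 := nat_eq h0 h
  have hP : ∏ i, x i = 2 * ∏ i ∈ univ.erase i₀, x i := by
    rw [← mul_prod_erase univ x (mem_univ i₀), h2]
  have hc : ∀ i ∈ univ.erase i₀, cop univ x i = 2 * cop (univ.erase i₀) x i := by
    intro i hi
    have hne := ne_of_mem_erase hi
    unfold cop
    rw [← mul_prod_erase (univ.erase i) x (mem_erase.mpr ⟨hne.symm, mem_univ i₀⟩), h2,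
      erase_right_comm]
  have hS : ∑ i, cop univ x i = ∏ i ∈ univ.erase i₀, x i +
      2 * ∑ i ∈ univ.erase i₀, cop (univ.erase i₀) x i := by
    rw [← add_sum_erase univ _ (mem_univ i₀), sum_congr rfl hc, mul_sum]
    rfl
  have hodd' : ∀ i ∈ univ.erase i₀, Odd (x i) := fun i hi => hodd i (ne_of_mem_erase hi)
  have h3 := even_case (univ.erase i₀) x hodd' (by omega)
  have hcard : (univ.erase i₀).card = s - 1 := by
    rw [card_erase_of_mem (mem_univ _), card_univ, Fintype.card_fin]
  have hs : 1 ≤ s := i₀.pos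
  have hb : (univ.filter fun i => x i % 4 = 1).card = none1 (univ.erase i₀) x := by
    unfold none1
    congr 1
    ext i
    simp only [mem_filter, mem_univ, true_and, mem_erase, and_true]
    constructor
    · intro hi
      refine ⟨?_, hi⟩
      rintro rfl
      omega
    · exact fun hi => hi.2
  rw [hcard] at h3
  rw [hP, hb]
  exact ⟨by omega, by omega⟩

theorem mod_nine {s : ℕ} {x : Fin s → ℕ} (h0 : ∀ i, x i ≠ 0) (h : Solution x) {j : Fin s}
    (hj : x j = 3) : (∏ i, x i) % 9 = 6 := by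
  have h1 := divis univ x 1 0 (by simpa using nat_eq h0 h) (fun i _ => dvd_zero _) j (mem_univ j)
  have h2 := mul_cop x (mem_univ j)
  rw [hj] at h1 h2
  omega

/-- Eight distinct odd primes never suffice. -/
theorem lt_one {p : Fin 8 → ℕ} (hmono : StrictMono p) (hp : ∀ i, (p i).Prime)
    (h2 : ∀ i, p i ≠ 2) : (∑ i, (1 : ℚ) / (p i : ℚ)) + 1 / (∏ i, (p i : ℚ)) < 1 := by
  have m : ∀ i j : Fin 8, i < j → p i < p j := fun i j hij => hmono hij
  have b0 : 3 ≤ p 0 := by
    have := (hp 0).two_le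
    have := h2 0
    omega
  have b1 : 5 ≤ p 1 := by
    have h01 := m 0 1 (by decide)
    by_contra hlt
    have : p 1 = 4 := by omega
    have h3 := hp 1
    rw [this] at h3
    norm_num at h3
  have b2 : 7 ≤ p 2 := by
    have h01 := m 1 2 (by decide)
    by_contra hlt
    have : p 2 = 6 := by omega
    have h3 := hp 2
    rw [this] at h3
    norm_num at h3
  have b3 : 11 ≤ p 3 := by
    have h01 := m 2 3 (by decide)
    by_contra hlt
    have h3 := hp 3
    have : p 3 = 8 ∨ p 3 = 9 ∨ p 3 = 10 := by omega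
    rcases this with this | this | this <;> rw [this] at h3 <;> norm_num at h3
  have b4 : 13 ≤ p 4 := by
    have h01 := m 3 4 (by decide)
    by_contra hlt
    have h3 := hp 4
    have : p 4 = 12 := by omega
    rw [this] at h3
    norm_num at h3
  have b5 : 17 ≤ p 5 := by
    have h01 := m 4 5 (by decide)
    by_contra hlt
    have h3 := hp 5
    have : p 5 = 14 ∨ p 5 = 15 ∨ p 5 = 16 := by omega
    rcases this with this | this | this <;> rw [this] at h3 <;> norm_num at h3
  have b6 : 19 ≤ p 6 := by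
    have h01 := m 5 6 (by decide)
    by_contra hlt
    have h3 := hp 6
    have : p 6 = 18 := by omega
    rw [this] at h3
    norm_num at h3
  have b7 : 23 ≤ p 7 := by
    have h01 := m 6 7 (by decide)
    by_contra hlt
    have h3 := hp 7
    have : p 7 = 20 ∨ p 7 = 21 ∨ p 7 = 22 := by omega
    rcases this with this | this | this <;> rw [this] at h3 <;> norm_num at h3
  have inv : ∀ (i : Fin 8) (c : ℕ), 0 < c → c ≤ p i → (1 : ℚ) / (p i : ℚ) ≤ 1 / (c : ℚ) := by
    intro i c hc hci
    exact one_div_le_one_div_of_le (by exact_mod_cast hc) (by exact_mod_cast hci)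
  have hprod : (3 * 5 * 7 * 11 * 13 * 17 * 19 * 23 : ℕ) ≤ ∏ i, p i := by
    rw [Fin.prod_univ_eight]
    gcongr
  have hprod' : (1 : ℚ) / (∏ i, (p i : ℚ)) ≤ 1 / ((3 * 5 * 7 * 11 * 13 * 17 * 19 * 23 : ℕ) : ℚ) := by
    apply one_div_le_one_div_of_le
    · norm_num
    · have : ((∏ i, p i : ℕ) : ℚ) = ∏ i, (p i : ℚ) := by push_cast; rfl
      rw [← this]
      exact_mod_cast hprod
  rw [Fin.sum_univ_eight]
  have i0 := inv 0 3 (by norm_num) b0
  have i1 := inv 1 5 (by norm_num) b1
  have i2 := inv 2 7 (by norm_num) b2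
  have i3 := inv 3 11 (by norm_num) b3
  have i4 := inv 4 13 (by norm_num) b4
  have i5 := inv 5 17 (by norm_num) b5
  have i6 := inv 6 19 (by norm_num) b6
  have i7 := inv 7 23 (by norm_num) b7
  norm_num at i0 i1 i2 i3 i4 i5 i6 i7 hprod' ⊢
  linarith

/-- There is no solution consisting of eight odd integers greater than one. -/
theorem ne_eight {x : Fin 8 → ℕ} (hx : ∀ i, 1 < x i) (hodd : ∀ i, Odd (x i))
    (h : Solution x) : False := by
  have h0 : ∀ i, x i ≠ 0 := fun i => (hodd i).pos.ne'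
  have hcop := coprime_of univ x 1
    (divis univ x 1 0 (by simpa using nat_eq h0 h) (fun i _ => dvd_zero _))
  have hq : ∀ i, (x i).minFac.Prime := fun i => Nat.minFac_prime (hx i).ne'
  have hinj : Function.Injective fun i => (x i).minFac := by
    intro i j hij
    by_contra hne
    have h1 := hcop i (mem_univ i) j (mem_univ j) hne
    have h2 : (x i).minFac ∣ x j := by
      have : (x i).minFac = (x j).minFac := hij
      rw [this]
      exact Nat.minFac_dvd _
    exact (hq i).one_lt.ne' (Nat.eq_one_of_dvd_coprimes h1 (Nat.minFac_dvd _) h2)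
  set σ := Tuple.sort fun i => (x i).minFac
  have hmono : StrictMono fun i => (x (σ i)).minFac := by
    have h1 : Monotone ((fun i => (x i).minFac) ∘ σ) := Tuple.monotone_sort _
    exact h1.strictMono_of_injective (hinj.comp σ.injective)
  have h2 : ∀ i, (x (σ i)).minFac ≠ 2 := by
    intro i hi
    have h3 : 2 ∣ x (σ i) := hi ▸ Nat.minFac_dvd _
    exact (Nat.not_even_iff_odd.mpr (hodd (σ i))) (even_iff_two_dvd.mpr h3)
  have hlt := lt_one hmono (fun i => hq (σ i)) h2
  have hle : ∀ i, ((x i).minFac : ℚ) ≤ x i := fun i => by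
    exact_mod_cast Nat.minFac_le (hodd i).pos
  have hpos : ∀ i, (0 : ℚ) < ((x i).minFac : ℚ) := fun i => by exact_mod_cast (hq i).pos
  have hsum : (∑ i, (1 : ℚ) / (x i : ℚ)) ≤ ∑ i, (1 : ℚ) / ((x (σ i)).minFac : ℚ) := by
    rw [Equiv.sum_comp σ fun i => (1 : ℚ) / ((x i).minFac : ℚ)]
    exact sum_le_sum fun i _ => one_div_le_one_div_of_le (hpos i) (hle i)
  have hprod : (1 : ℚ) / (∏ i, (x i : ℚ)) ≤ 1 / ∏ i, ((x (σ i)).minFac : ℚ) := by
    rw [Equiv.prod_comp σ fun i => ((x i).minFac : ℚ)]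
    refine one_div_le_one_div_of_le (prod_pos fun i _ => hpos i) ?_
    exact prod_le_prod (fun i _ => (hpos i).le) fun i _ => hle i
  unfold Solution at h
  linarith

/-- Necessary conditions on the solutions of `∑ 1/x_i + 1/∏ x_i = 1` of length `s`.

(1) If all terms are odd (and greater than 1), then `8 ∣ s` and `16 ≤ s`, and the number of terms
congruent to 3 modulo 4 is congruent to 0 or 3 modulo 4.
(2) If one term is 2 and the others are odd, then `∏ x_i ≡ 4 s - 2 (mod 32)`, the number of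
terms congruent to 1 modulo 4 is divisible by 4, and if 3 is a term then
`∏ x_i ≡ 36 (s - 2) + 6 (mod 288)`.
(3) Every solution in distinct primes is of one of these two kinds. -/
theorem result :
    (∀ (s : ℕ) (x : Fin s → ℕ), 1 ≤ s → (∀ i, 1 < x i) → (∀ i, Odd (x i)) → Solution x →
      8 ∣ s ∧ 16 ≤ s ∧ ((univ.filter fun i => x i % 4 = 3).card % 4 = 0 ∨
        (univ.filter fun i => x i % 4 = 3).card % 4 = 3)) ∧
    (∀ (s : ℕ) (x : Fin s → ℕ) (i₀ : Fin s), x i₀ = 2 → (∀ i, i ≠ i₀ → Odd (x i)) →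
      Solution x →
      (∏ i, x i) % 32 = (4 * s + 30) % 32 ∧
        4 ∣ (univ.filter fun i => x i % 4 = 1).card ∧
        ((∃ i, x i = 3) → (∏ i, x i) % 288 = (36 * s + 222) % 288)) ∧
    (∀ (s : ℕ) (x : Fin s → ℕ), StrictMono x → (∀ i, (x i).Prime) → Solution x →
      (∀ i, Odd (x i)) ∨ ∃ i₀, x i₀ = 2 ∧ ∀ i, i ≠ i₀ → Odd (x i)) := by
  refine ⟨fun s x hs hx hodd h => ?_, fun s x i₀ h2 hodd h => ?_, fun s x hmono hp h => ?_⟩
  · obtain ⟨h1, h2⟩ := all_odd hodd h
    refine ⟨h1, ?_, h2⟩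
    by_contra hlt
    have h8 : s = 8 := by omega
    subst h8
    exact ne_eight hx hodd h
  · obtain ⟨h3, h4⟩ := one_two h2 hodd h
    refine ⟨h3, h4, ?_⟩
    rintro ⟨j, hj⟩
    have h0 : ∀ i, x i ≠ 0 := by
      intro i
      by_cases hi : i = i₀
      · rw [hi, h2]; norm_num
      · exact (hodd i hi).pos.ne'
    have h9 := mod_nine h0 h hj
    omega
  · by_cases hex : ∃ i, x i = 2
    · right
      obtain ⟨i₀, hi₀⟩ := hex
      refine ⟨i₀, hi₀, fun i hi => (hp i).odd_of_ne_two fun h2 => hi ?_⟩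
      exact hmono.injective (h2.trans hi₀.symm)
    · left
      push Not at hex
      exact fun i => (hp i).odd_of_ne_two (hex i)

end Pool.Agent.Results.MP_6434ae_nt.ResidueObstruction
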